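import Mathlib
import Pool.Agent.Helper89.Comp
import Pool.Agent.Helper95.Slp.Circ3

/-!
# Exact membership in the theta body is hard for real circuits

The value problem for circuits over the real numbers with the operations `+, -, *, /, √` and sign
tests, hence also PosSLP and the sum of square roots problem, reduces in polynomial time to the
exact membership of the vector `(1/8, …, 1/8)` in the theta body of a graph.
-/

open Turing
open scoped InnerProductSpace

namespace Pool.Agent.Results.MP_0878b7_lc.PosSlpHard

/-! ### Computability in polynomial time -/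

/-- Types whose elements are coded by strings of Booleans. -/
class Coded (α : Type) where
  /-- the code -/
  code : α → List Bool

export Coded (code)

/-- The code of a pair of strings: the symbols of the first string, each preceded by `true`, then
`false`, then the second string. -/
def pairCode (u v : List Bool) : List Bool := u.flatMap (fun a => [true, a]) ++ false :: v

/-- A Boolean is coded by itself. -/
instance instCodedBool : Coded Bool := ⟨fun b => [b]⟩

/-- A natural number that is a size or the index of a vertex is coded in unary. (Other numbers are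
represented by their binary digits, see `bval` below.) -/
instance instCodedNat : Coded ℕ := ⟨fun n => List.replicate n true⟩

/-- The code of a pair. -/
instance instCodedProd {α β : Type} [Coded α] [Coded β] : Coded (α × β) :=
  ⟨fun x => pairCode (code x.1) (code x.2)⟩

/-- The code of a list: `pairCode (code a₁) (pairCode (code a₂) (… []))`. -/
instance instCodedList {α : Type} [Coded α] : Coded (List α) :=
  ⟨fun l => l.foldr (fun a s => pairCode (code a) s) []⟩

/-- The function `f` is computable in polynomial time by a Turing machine. -/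
def PolyTime {α β : Type} [Coded α] [Coded β] (f : α → β) : Prop :=
  Nonempty (TM2ComputableInPolyTime (code : α → List Bool) (code : β → List Bool) f)

/-- Polynomial-time many-one reducibility. -/
def Reduces {α β : Type} [Coded α] [Coded β] (A : Set α) (B : Set β) : Prop :=
  ∃ f : α → β, PolyTime f ∧ ∀ x, x ∈ A ↔ f x ∈ B

/-- The problem can be decided in polynomial time. -/
def InP {α : Type} [Coded α] (A : Set α) : Prop :=
  ∃ f : α → Bool, PolyTime f ∧ ∀ x, x ∈ A ↔ f x = true

/-! ### Numbers in binary -/

/-- The natural number with the given binary digits, least significant digit first. -/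
def bval : List Bool → ℕ
  | [] => 0
  | b :: l => (bif b then 1 else 0) + 2 * bval l

/-- Integers in binary: a sign (`true` for nonnegative) and the digits of the absolute value. -/
abbrev BInt : Type := Bool × List Bool

/-- The integer with a given binary representation. -/
def ival (z : BInt) : ℤ := bif z.1 then (bval z.2 : ℤ) else - (bval z.2 : ℤ)

/-! ### The theta body -/

/-- The theta body of a graph. The index `none` stands for the additional row `0`. -/
def TH {V : Type} (G : SimpleGraph V) : Set (V → ℝ) :=
  {x | ∃ Y : Matrix (Option V) (Option V) ℝ, Y.PosSemidef ∧ Y none none = 1 ∧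
    (∀ i, Y none (some i) = x i ∧ Y (some i) (some i) = x i) ∧
    ∀ i j, G.Adj i j → Y (some i) (some j) = 0}

/-- The graph on `Fin n` whose edges are given by a list of pairs of vertices. -/
def graphOf (n : ℕ) (E : List (ℕ × ℕ)) : SimpleGraph (Fin n) where
  Adj i j := i ≠ j ∧ (((i : ℕ), (j : ℕ)) ∈ E ∨ ((j : ℕ), (i : ℕ)) ∈ E)
  symm := ⟨fun _ _ h => ⟨h.1.symm, h.2.symm⟩⟩
  loopless := ⟨fun _ h => h.1 rfl⟩

/-- **Exact membership of the vector `(1/8, …, 1/8)` in the theta body.** An instance is the number
of vertices with the list of the edges of the graph. -/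
def TH8 : Set (ℕ × List (ℕ × ℕ)) := {I | (fun _ => 1 / 8) ∈ TH (graphOf I.1 I.2)}

/-! ### Real circuits -/

/-- A gate of a circuit: the number of the operation, the numbers of the two operands, and an
integer in binary (used by gates with a constant). -/
abbrev Gate : Type := ℕ × ℕ × ℕ × BInt

/-- The operations of real circuits: constants, `+`, `-`, `*`, `/`, the square root, and the test
for positivity. All operations are total: `a / 0 = 0`, and the square root of a negative number is
`0`. -/
noncomputable def opR : ℕ → ℝ → ℝ → ℝ → ℝ
  | 0, z, _, _ => z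
  | 1, _, a, b => a + b
  | 2, _, a, b => a - b
  | 3, _, a, b => a * b
  | 4, _, a, b => a / b
  | 5, _, a, _ => √a
  | _, _, a, _ => if 0 < a then 1 else 0

/-- The operands of the gate number `k` (counted from `0`) are among the values with the numbers
`0, …, k`; a bigger number is replaced by `0`. -/
def idx (k i : ℕ) : ℕ := if i ≤ k then i else 0

lemma idx_le (k i : ℕ) : idx k i ≤ k := by unfold idx; split_ifs <;> omega

/-- The values of the circuit `P`: the value number `0` is `1`, and the value number `k + 1` is the
value of the gate number `k`. -/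
noncomputable def valR (P : List Gate) : ℕ → ℝ
  | 0 => 1
  | k + 1 => match P[k]? with
    | none => 0
    | some g => opR g.1 (ival g.2.2.2) (valR P (idx k g.2.1)) (valR P (idx k g.2.2.1))
  decreasing_by all_goals exact Nat.lt_succ_of_le (idx_le _ _)

/-- **The value problem for real circuits** with rational operations, square roots and sign tests:
is the last value of the circuit positive? -/
def RealCircuit : Set (List Gate) := {P | 0 < valR P P.length}

/-! ### Integer straight-line programs -/

/-- The operations of integer straight-line programs. -/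
def opZ : ℕ → ℤ → ℤ → ℤ
  | 0, a, b => a + b
  | 1, a, b => a - b
  | _, a, b => a * b

/-- The values of the program `P`, a list of triples (operation, first operand, second operand):
the value number `0` is `1`. -/
def valZ (P : List (ℕ × ℕ × ℕ)) : ℕ → ℤ
  | 0 => 1
  | k + 1 => match P[k]? with
    | none => 0
    | some g => opZ g.1 (valZ P (idx k g.2.1)) (valZ P (idx k g.2.2))
  decreasing_by all_goals exact Nat.lt_succ_of_le (idx_le _ _)

/-- **PosSLP**: is the integer computed by the straight-line program positive? -/
def PosSLP : Set (List (ℕ × ℕ × ℕ)) := {P | 0 < valZ P P.length}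

/-! ### Sums of square roots -/

/-- **The sum of square roots problem.** An instance is a list of signs and natural numbers `a` in
binary. Question: is `∑ ±√a ≥ 0`? -/
def SumSqrt : Set (List BInt) :=
  {l | 0 ≤ (l.map fun z => (if z.1 = true then 1 else -1) * √(bval z.2 : ℝ)).sum}

/-! ### Comparison with the definitions of the helper files -/

open Pool.Agent.Helper92 in
lemma bval_eq : bval = Theta.bval := by
  funext l
  induction l with
  | nil => rfl
  | cons b l ih => rw [bval, Theta.bval, ih]

open Pool.Agent.Helper92 in
lemma ival_eq : ival = Theta.ival := by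
  funext z
  rw [ival, Theta.ival, bval_eq]

open Pool.Agent.Helper92 in
lemma th8_eq : TH8 = Theta.Theta8 := rfl

open Pool.Agent.Helper95 in
lemma opR_eq (n : ℕ) (z a b : ℝ) : opR n z a b = Slp.opR n z a b := by
  match n with
  | 0 => rfl
  | 1 => rfl
  | 2 => rfl
  | 3 => rfl
  | 4 => rfl
  | 5 => rfl
  | n + 6 => rfl

open Pool.Agent.Helper95 in
lemma opZ_eq (n : ℕ) (a b : ℤ) : opZ n a b = Slp.opZ n a b := by
  match n with
  | 0 => rfl
  | 1 => rfl
  | n + 2 => rfl

open Pool.Agent.Helper95 in
lemma valR_eq (P : List Gate) (c : ℕ) : valR P c = Slp.ev P c := by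
  induction c using Nat.strong_induction_on with
  | _ c ih =>
    rcases c with _ | k
    · rw [valR, Slp.ev]
    · rw [valR, Slp.ev]
      rcases P[k]? with _ | g
      · rfl
      · have a1 := idx_le k g.2.1
        have a2 := idx_le k g.2.2.1
        simp only
        rw [ih _ (by omega), ih _ (by omega), opR_eq, ival_eq]
        rfl

open Pool.Agent.Helper95 in
lemma valZ_eq (P : List (ℕ × ℕ × ℕ)) (c : ℕ) : valZ P c = Slp.evZ P c := by
  induction c using Nat.strong_induction_on with
  | _ c ih =>
    rcases c with _ | k
    · rw [valZ, Slp.evZ]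
    · rw [valZ, Slp.evZ]
      rcases P[k]? with _ | g
      · rfl
      · have a1 := idx_le k g.2.1
        have a2 := idx_le k g.2.2
        simp only
        rw [ih _ (by omega), ih _ (by omega), opZ_eq]
        rfl

open Pool.Agent.Helper95 in
lemma realCircuit_eq : RealCircuit = Slp.RealCircuit := by
  ext P
  change 0 < valR P P.length ↔ 0 < Slp.ev P P.length
  rw [valR_eq]

open Pool.Agent.Helper95 in
lemma posSLP_eq : PosSLP = Slp.PosSLP := by
  ext P
  change 0 < valZ P P.length ↔ 0 < Slp.evZ P P.length
  rw [valZ_eq]

open Pool.Agent.Helper95 in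
lemma sumSqrt_eq : SumSqrt = Slp.SumSqrt := by
  unfold SumSqrt Slp.SumSqrt Slp.sqt
  rw [bval_eq]

/-! ### Reductions -/

open Pool.Agent.Helper91.PolyTime in
/-- The codes agree with those of the helper files. -/
class Agree (α : Type) [Coded α] [PEnc α] : Prop where
  eq : ∀ x : α, code x = PEnc.enc x

instance : Agree Bool := ⟨fun _ => rfl⟩

instance : Agree ℕ := ⟨fun _ => rfl⟩

open Pool.Agent.Helper91.PolyTime in
instance {α β : Type} [Coded α] [PEnc α] [Agree α] [Coded β] [PEnc β] [Agree β] :
    Agree (α × β) := ⟨fun x => by
  change pairCode (code x.1) (code x.2) = pr (PEnc.enc x.1) (PEnc.enc x.2)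
  rw [Agree.eq, Agree.eq]
  rfl⟩

open Pool.Agent.Helper91.PolyTime in
instance {α : Type} [Coded α] [PEnc α] [Agree α] : Agree (List α) := ⟨fun l => by
  induction l with
  | nil => rfl
  | cons a l ih =>
    change pairCode (code a) (code l) = pr (PEnc.enc a) (PEnc.enc l)
    rw [Agree.eq a, ih]
    rfl⟩

open Pool.Agent.Helper91.PolyTime in
lemma polyTime_of_ptf {α β : Type} [Coded α] [PEnc α] [Agree α] [Coded β] [PEnc β] [Agree β]
    {f : α → β} (hf : PTF f) : PolyTime f := by
  have h1 : (code : α → List Bool) = PEnc.enc := funext Agree.eq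
  have h2 : (code : β → List Bool) = PEnc.enc := funext Agree.eq
  unfold PolyTime
  rw [h1, h2]
  refine PT.tm2 _ _ (fun b => [b]) f ?_
  have h : (fun a : α => (PEnc.enc a).flatMap (fun b => [b])) = fun a => PEnc.enc a := by
    funext a
    simp
  rw [h]
  exact hf

lemma InP.of_reduces {α β : Type} [Coded α] [Coded β] {A : Set α} {B : Set β} (h : Reduces A B)
    (hB : InP B) : InP A := by
  obtain ⟨f, ⟨hf⟩, hfA⟩ := h
  obtain ⟨g, ⟨hg⟩, hgB⟩ := hB
  exact ⟨g ∘ f, Pool.Agent.Helper89.TM2Poly.comp hf hg, fun x => (hfA x).trans (hgB _)⟩

lemma Reduces.trans {α β γ : Type} [Coded α] [Coded β] [Coded γ] {A : Set α} {B : Set β} {C : Set γ}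
    (h : Reduces A B) (h' : Reduces B C) : Reduces A C := by
  obtain ⟨f, ⟨hf⟩, hfA⟩ := h
  obtain ⟨g, ⟨hg⟩, hgB⟩ := h'
  exact ⟨g ∘ f, Pool.Agent.Helper89.TM2Poly.comp hf hg, fun x => (hfA x).trans (hgB _)⟩

open Pool.Agent.Helper95 in
lemma circuit_reduces : Reduces RealCircuit TH8 := by
  rw [realCircuit_eq, th8_eq]
  exact ⟨_, polyTime_of_ptf (Pool.Agent.Helper92.Theta.ptf_red.comp Slp.ptf_circSDP),
    fun P => (Slp.circSDP_iff P).trans (Pool.Agent.Helper92.Theta.red_iff _)⟩

open Pool.Agent.Helper95 in
lemma circuit_compl : Reduces RealCircuitᶜ RealCircuit := by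
  rw [realCircuit_eq]
  exact ⟨_, polyTime_of_ptf Slp.ptf_negE, fun P => (Slp.negE_iff P).symm⟩

open Pool.Agent.Helper95 in
lemma posSLP_reduces : Reduces PosSLP RealCircuit := by
  rw [realCircuit_eq, posSLP_eq]
  exact ⟨_, polyTime_of_ptf Slp.ptf_circZ, Slp.circZ_iff⟩

open Pool.Agent.Helper95 in
lemma sumSqrt_reduces : Reduces SumSqrt RealCircuit := by
  rw [realCircuit_eq, sumSqrt_eq]
  exact ⟨_, polyTime_of_ptf Slp.ptf_circS, Slp.circS_iff⟩

lemma Reduces.compl {α β : Type} [Coded α] [Coded β] {A : Set α} {B : Set β}
    (h : Reduces A B) : Reduces Aᶜ Bᶜ := by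
  obtain ⟨f, hf, hA⟩ := h
  exact ⟨f, hf, fun x => not_congr (hA x)⟩

/-- **The result.** The value problem for real circuits with rational operations, square roots and
sign tests, the problem PosSLP, the sum of square roots problem, and the complements of these three
problems reduce in polynomial time to the exact membership of the vector `(1/8, …, 1/8)` in the
theta body of a graph. In particular, if the latter can be decided in polynomial time, so can every
problem that reduces to one of the former. -/
theorem result :
    (Reduces RealCircuit TH8 ∧ Reduces RealCircuitᶜ TH8) ∧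
    (Reduces PosSLP TH8 ∧ Reduces PosSLPᶜ TH8) ∧
    (Reduces SumSqrt TH8 ∧ Reduces SumSqrtᶜ TH8) ∧
    (InP TH8 → InP RealCircuit ∧ InP PosSLP ∧ InP SumSqrt ∧
      ∀ (α : Type) (_ : Coded α) (A : Set α), Reduces A RealCircuit → InP A) := by
  have h1 := circuit_reduces
  have h2 : Reduces RealCircuitᶜ TH8 := circuit_compl.trans h1
  refine ⟨⟨h1, h2⟩, ⟨posSLP_reduces.trans h1, posSLP_reduces.compl.trans h2⟩,
    ⟨sumSqrt_reduces.trans h1, sumSqrt_reduces.compl.trans h2⟩, fun h => ⟨h.of_reduces h1,
      h.of_reduces (posSLP_reduces.trans h1), h.of_reduces (sumSqrt_reduces.trans h1), ?_⟩⟩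
  intro α _ A hA
  exact h.of_reduces (hA.trans h1)

end Pool.Agent.Results.MP_0878b7_lc.PosSlpHard
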